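import Pool.Agent.Y17.N.Defs

/-!
# The odd modular symbol of `X_0(14)` as a counting function (`t_SYMN`)

Adaptation of `Pool.Agent.Y681.Z7.SymCore` and `Pool.Agent.Y681.Z7.Sym`.
-/

set_option autoImplicit false

namespace Pool.Agent.Z141.N

open Pool.Agent.Y17.N

noncomputable section

/-- the parameters -/
def Gp (δ r : ℤ) : Prop := (δ = 3 ∧ r = 17) ∨ (δ = 1 ∧ r = 15)

/-- value of a form -/
def ev (q : ℤ × ℤ × ℤ) (x M : ℤ) : ℤ := q.1 * x ^ 2 + q.2.1 * x * M + q.2.2 * M ^ 2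

/-- the set of forms -/
def inF (δ r : ℤ) (q : ℤ × ℤ × ℤ) : Prop :=
  q.2.1 ^ 2 - 4 * q.1 * q.2.2 = δ ^ 2 ∧ (14 : ℤ) ∣ q.1 ∧ q.2.1 % 28 = r

/-- substitution -/
def act (a b c d : ℤ) (q : ℤ × ℤ × ℤ) : ℤ × ℤ × ℤ :=
  (q.1 * a ^ 2 + q.2.1 * a * c + q.2.2 * c ^ 2,
   2 * q.1 * a * b + q.2.1 * (a * d + b * c) + 2 * q.2.2 * c * d,
   q.1 * b ^ 2 + q.2.1 * b * d + q.2.2 * d ^ 2)

theorem ev_act (a b c d : ℤ) (q : ℤ × ℤ × ℤ) (x M : ℤ) :
    ev (act a b c d q) x M = ev q (a * x + b * M) (c * x + d * M) := by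
  unfold ev act
  simp only
  ring

theorem act_inv {a b c d : ℤ} (h : a * d - b * c = 1) (q : ℤ × ℤ × ℤ) :
    act d (-b) (-c) a (act a b c d q) = q := by
  obtain ⟨A, B, C⟩ := q
  unfold act
  simp only [Prod.mk.injEq]
  refine ⟨?_, ?_, ?_⟩
  · linear_combination A * (a * d - b * c + 1) * h
  · linear_combination B * (a * d - b * c + 1) * h
  · linear_combination C * (a * d - b * c + 1) * h

/-- the substitution as an equivalence -/
def eqv (a b c d : ℤ) (h : a * d - b * c = 1) : (ℤ × ℤ × ℤ) ≃ (ℤ × ℤ × ℤ) where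
  toFun := act a b c d
  invFun := act d (-b) (-c) a
  left_inv := act_inv h
  right_inv := by
    intro q
    have h' : d * a - (-b) * (-c) = 1 := by linear_combination h
    have := act_inv h' q
    simpa only [neg_neg] using this

theorem inF_act {δ r a b c d : ℤ} (h : a * d - b * c = 1) (hc : (14 : ℤ) ∣ c) {q : ℤ × ℤ × ℤ}
    (hq : inF δ r q) : inF δ r (act a b c d q) := by
  obtain ⟨A, B, C⟩ := q
  obtain ⟨c1, rfl⟩ := hc
  obtain ⟨h1, ⟨A1, h2⟩, h3⟩ := hq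
  simp only at h1 h2 h3
  refine ⟨?_, ?_, ?_⟩
  · unfold act
    simp only
    linear_combination (a * d - b * (14 * c1)) ^ 2 * h1 +
      δ ^ 2 * (a * d - b * (14 * c1) + 1) * h
  · unfold act
    simp only
    exact ⟨A1 * a ^ 2 + B * a * c1 + C * c1 ^ 2 * 14, by rw [h2]; ring⟩
  · unfold act
    simp only
    have h4 : 2 * A * a * b + B * (a * d + b * (14 * c1)) + 2 * C * (14 * c1) * d =
        B + 28 * (A1 * a * b + B * b * c1 + C * c1 * d) := by
      rw [h2]; linear_combination B * h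
    rw [h4]
    omega

theorem inF_act_iff {δ r a b c d : ℤ} (h : a * d - b * c = 1) (hc : (14 : ℤ) ∣ c)
    {q : ℤ × ℤ × ℤ} : inF δ r (act a b c d q) ↔ inF δ r q := by
  refine ⟨fun hq => ?_, inF_act h hc⟩
  have h' : d * a - (-b) * (-c) = 1 := by linear_combination h
  have h1 := inF_act h' (hc.neg_right) hq
  rwa [act_inv h] at h1

open Classical in
/-- the difference of the signs at two points -/
def T (δ r x M y N : ℤ) (q : ℤ × ℤ × ℤ) : ℤ :=
  if inF δ r q then (Int.sign (ev q x M) - Int.sign (ev q y N)) else 0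

/-- the counting function -/
def G (δ r x M : ℤ) : ℤ := ∑ᶠ q, T δ r x M 1 0 q

theorem T_act {δ r a b c d : ℤ} (h : a * d - b * c = 1) (hc : (14 : ℤ) ∣ c) (x M y N : ℤ)
    (q : ℤ × ℤ × ℤ) : T δ r (a * x + b * M) (c * x + d * M) (a * y + b * N) (c * y + d * N) q =
      T δ r x M y N (act a b c d q) := by
  unfold T
  by_cases hq : inF δ r q
  · rw [if_pos hq, if_pos (inF_act h hc hq), ev_act, ev_act]
  · rw [if_neg hq, if_neg (fun h1 => hq ((inF_act_iff h hc).1 h1))]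

theorem T_add (δ r x M y N z L : ℤ) (q : ℤ × ℤ × ℤ) :
    T δ r x M z L q = T δ r x M y N q + T δ r y N z L q := by
  unfold T
  split_ifs
  · ring
  · ring

/-- no form vanishes at the point -/
def NV (δ r x M : ℤ) : Prop := ∀ q, inF δ r q → ev q x M ≠ 0

theorem ev10 (q : ℤ × ℤ × ℤ) : ev q 1 0 = q.1 := by
  unfold ev; ring

theorem A_ne {δ r : ℤ} (hg : Gp δ r) {q : ℤ × ℤ × ℤ} (hq : inF δ r q) : q.1 ≠ 0 := by
  intro h0
  obtain ⟨h1, -, h3⟩ := hq
  rw [h0] at h1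
  have h4 : (q.2.1 - δ) * (q.2.1 + δ) = 0 := by linear_combination h1
  rcases hg with ⟨rfl, rfl⟩ | ⟨rfl, rfl⟩ <;> rcases mul_eq_zero.1 h4 with h5 | h5 <;> omega

theorem C_ne {δ r : ℤ} (hg : Gp δ r) {q : ℤ × ℤ × ℤ} (hq : inF δ r q) : q.2.2 ≠ 0 := by
  intro h0
  obtain ⟨h1, -, h3⟩ := hq
  rw [h0] at h1
  have h4 : (q.2.1 - δ) * (q.2.1 + δ) = 0 := by linear_combination h1
  rcases hg with ⟨rfl, rfl⟩ | ⟨rfl, rfl⟩ <;> rcases mul_eq_zero.1 h4 with h5 | h5 <;> omega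

theorem NV_inf {δ r : ℤ} (hg : Gp δ r) {a b c d : ℤ} (h : a * d - b * c = 1)
    (hc : (14 : ℤ) ∣ c) : NV δ r a c := by
  intro q hq
  have h1 := A_ne hg (inF_act h hc hq)
  have h2 : (act a b c d q).1 = ev q a c := by
    unfold act ev
    ring
  rwa [h2] at h1

theorem NV_zero {δ r : ℤ} (hg : Gp δ r) : NV δ r 0 1 := by
  intro q hq
  have h1 := C_ne hg hq
  have h2 : ev q 0 1 = q.2.2 := by unfold ev; ring
  rwa [h2]

theorem NV_cop {δ r : ℤ} (hg : Gp δ r) {x M : ℤ} (h : IsCoprime (14 * x) M) : NV δ r x M := by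
  intro q hq h0
  obtain ⟨h1, ⟨A1, h2⟩, h3⟩ := hq
  obtain ⟨B1, hB⟩ : ∃ B1, q.2.1 = 28 * B1 + r := ⟨q.2.1 / 28, by omega⟩
  have h4 : (2 * q.1 * x + q.2.1 * M - δ * M) * (2 * q.1 * x + q.2.1 * M + δ * M) = 0 := by
    unfold ev at h0
    linear_combination 4 * q.1 * h0 + M ^ 2 * h1
  rw [h2, hB] at h4
  have nodd : ¬ (2 : ℤ) ∣ M := by
    intro h5
    have h6 : (2 : ℤ) ∣ 14 * x := ⟨7 * x, by ring⟩
    have h7 := h.isUnit_of_dvd' h6 h5
    rw [Int.isUnit_iff] at h7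
    omega
  have n7 : ¬ (7 : ℤ) ∣ M := by
    intro h5
    have h6 : (7 : ℤ) ∣ 14 * x := ⟨2 * x, by ring⟩
    have h7 := h.isUnit_of_dvd' h6 h5
    rw [Int.isUnit_iff] at h7
    omega
  rcases hg with ⟨rfl, rfl⟩ | ⟨rfl, rfl⟩
  · rcases mul_eq_zero.1 h4 with h5 | h5
    · apply nodd
      exact ⟨-(A1 * x + B1 * M), by linarith⟩
    · have h6 : (7 : ℤ) ∣ 5 * M := ⟨-(A1 * x + B1 * M), by linarith⟩
      have h7 : IsCoprime (7 : ℤ) 5 := ⟨3, -4, by norm_num⟩
      exact n7 (h7.dvd_of_dvd_mul_left h6)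
  · rcases mul_eq_zero.1 h4 with h5 | h5
    · apply nodd
      exact ⟨-(A1 * x + B1 * M), by linarith⟩
    · have h6 : (7 : ℤ) ∣ 4 * M := ⟨-(A1 * x + B1 * M), by linarith⟩
      have h7 : IsCoprime (7 : ℤ) 4 := ⟨-1, 2, by norm_num⟩
      exact n7 (h7.dvd_of_dvd_mul_left h6)

theorem key {δ : ℤ} {q : ℤ × ℤ × ℤ} (h : q.2.1 ^ 2 - 4 * q.1 * q.2.2 = δ ^ 2) (x M : ℤ) :
    4 * (q.1 * ev q x M) = (2 * q.1 * x + q.2.1 * M) ^ 2 - δ ^ 2 * M ^ 2 := by
  unfold ev
  linear_combination -(M ^ 2) * h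

theorem T_ne {δ r : ℤ} (hg : Gp δ r) {x M : ℤ} (hNV : NV δ r x M) {q : ℤ × ℤ × ℤ}
    (h : T δ r x M 1 0 q ≠ 0) : inF δ r q ∧ q.1 * ev q x M < 0 := by
  unfold T at h
  by_cases hq : inF δ r q
  · refine ⟨hq, ?_⟩
    rw [if_pos hq, ev10] at h
    have h1 : Int.sign (ev q x M) ≠ Int.sign q.1 := by
      intro h2
      apply h
      rw [h2, sub_self]
    have h2 := A_ne hg hq
    have h3 := hNV q hq
    rcases lt_or_gt_of_ne h2 with h4 | h4
    · rcases lt_or_gt_of_ne h3 with h5 | h5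
      · exact absurd (by rw [Int.sign_eq_neg_one_of_neg h4, Int.sign_eq_neg_one_of_neg h5]) h1
      · exact mul_neg_of_neg_of_pos h4 h5
    · rcases lt_or_gt_of_ne h3 with h5 | h5
      · exact mul_neg_of_pos_of_neg h4 h5
      · exact absurd (by rw [Int.sign_eq_one_of_pos h4, Int.sign_eq_one_of_pos h5]) h1
  · rw [if_neg hq] at h
    exact absurd rfl h

theorem Gp.pos {δ r : ℤ} (hg : Gp δ r) : 0 < δ := by
  rcases hg with ⟨rfl, rfl⟩ | ⟨rfl, rfl⟩ <;> norm_num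

theorem bound {δ : ℤ} (hδ : 0 < δ) {x M : ℤ} {q : ℤ × ℤ × ℤ}
    (hd : q.2.1 ^ 2 - 4 * q.1 * q.2.2 = δ ^ 2) (h : q.1 * ev q x M < 0) :
    4 * |q.1| ≤ δ ^ 2 * M ^ 2 ∧ |2 * q.1 * x + q.2.1 * M| < δ * |M| := by
  have h1 := key hd x M
  have h2 : (2 * q.1 * x + q.2.1 * M) ^ 2 < (δ * M) ^ 2 := by nlinarith
  have h3 := sq_lt_sq.1 h2
  rw [abs_mul, abs_of_pos hδ] at h3
  refine ⟨?_, h3⟩
  have h4 : ev q x M ≠ 0 := by
    intro h5; rw [h5, mul_zero] at h; exact lt_irrefl _ h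
  have h5 : 1 ≤ |ev q x M| := Int.one_le_abs h4
  have h6 : |q.1| * |ev q x M| = -(q.1 * ev q x M) := by
    rw [← abs_mul, abs_of_neg h]
  have h7 : |q.1| ≤ |q.1| * |ev q x M| := le_mul_of_one_le_right (abs_nonneg _) h5
  nlinarith [sq_nonneg (2 * q.1 * x + q.2.1 * M)]

theorem fin_T {δ r : ℤ} (hg : Gp δ r) {x M : ℤ} (hNV : NV δ r x M) :
    (Function.support (T δ r x M 1 0)).Finite := by
  have hδ := hg.pos
  rcases eq_or_ne M 0 with rfl | hM
  · have : Function.support (T δ r x 0 1 0) = ∅ := by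
      rw [Set.eq_empty_iff_forall_notMem]
      intro q hq
      have h1 := T_ne hg hNV hq
      have h2 := (bound hδ h1.1.1 h1.2).2
      rw [abs_zero] at h2
      have h3 : δ * 0 = (0:ℤ) := mul_zero δ
      have h4 := lt_of_lt_of_eq h2 h3
      exact absurd (abs_nonneg _) (not_le.2 h4)
    rw [this]
    exact Set.finite_empty
  · set K : ℤ := δ ^ 2 * M ^ 2 with hK
    set L : ℤ := δ * |M| + 2 * K * |x| with hL
    set R : ℤ := L ^ 2 + δ ^ 2 with hR
    refine ((Set.finite_Icc (-K) K).prod ((Set.finite_Icc (-L) L).prod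
      (Set.finite_Icc (-R) R))).subset ?_
    intro q hq
    have h1 := T_ne hg hNV hq
    obtain ⟨h2, h3⟩ := bound hδ h1.1.1 h1.2
    have hA : |q.1| ≤ K := by
      have := abs_nonneg q.1
      omega
    have hM1 : 1 ≤ |M| := Int.one_le_abs hM
    have hB : |q.2.1| ≤ L := by
      have h4 : |q.2.1 * M| ≤ |2 * q.1 * x + q.2.1 * M| + |2 * q.1 * x| := by
        have h5 : q.2.1 * M = (2 * q.1 * x + q.2.1 * M) - 2 * q.1 * x := by ring
        calc |q.2.1 * M| = |(2 * q.1 * x + q.2.1 * M) - 2 * q.1 * x| := by rw [← h5]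
          _ ≤ _ := abs_sub _ _
      have h6 : |2 * q.1 * x| ≤ 2 * K * |x| := by
        rw [abs_mul, abs_mul]
        have : |(2:ℤ)| = 2 := rfl
        rw [this]
        have := abs_nonneg x
        nlinarith
      have h7 : |q.2.1| ≤ |q.2.1 * M| := by
        rw [abs_mul]
        exact le_mul_of_one_le_right (abs_nonneg _) hM1
      rw [hL]
      linarith
    have hC : |q.2.2| ≤ R := by
      have h4 : 4 * (q.1 * q.2.2) = q.2.1 ^ 2 - δ ^ 2 := by
        have := h1.1.1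
        linarith
      have h5 : 4 * (|q.1| * |q.2.2|) ≤ q.2.1 ^ 2 + δ ^ 2 := by
        rw [← abs_mul]
        rcases abs_cases (q.1 * q.2.2) with ⟨h6, _⟩ | ⟨h6, _⟩ <;> rw [h6] <;>
          nlinarith [sq_nonneg q.2.1, sq_nonneg δ]
      have h6 : q.2.1 ^ 2 ≤ L ^ 2 := by
        rw [← sq_abs q.2.1]
        exact pow_le_pow_left₀ (abs_nonneg _) hB 2
      have h7 : 1 ≤ |q.1| := Int.one_le_abs (A_ne hg h1.1)
      have h8 : |q.2.2| ≤ |q.1| * |q.2.2| := le_mul_of_one_le_left (abs_nonneg _) h7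
      have h9 := abs_nonneg q.2.2
      rw [hR]
      linarith
    refine ⟨?_, ?_, ?_⟩
    · exact abs_le.1 hA
    · exact abs_le.1 hB
    · exact abs_le.1 hC

theorem G_coc {δ r : ℤ} (hg : Gp δ r) {a b c d : ℤ} (h : a * d - b * c = 1) (hc : (14 : ℤ) ∣ c)
    {x M : ℤ} (hNV : NV δ r x M) :
    G δ r (a * x + b * M) (c * x + d * M) = G δ r x M + G δ r a c := by
  unfold G
  have h1 : ∀ q, T δ r (a * x + b * M) (c * x + d * M) 1 0 q =
      T δ r x M 1 0 (eqv a b c d h q) + T δ r a c 1 0 q := by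
    intro q
    rw [T_add _ _ _ _ a c 1 0 q]
    congr 1
    have h2 := T_act (δ := δ) (r := r) h hc x M 1 0 q
    simp only [mul_one, mul_zero, add_zero] at h2
    exact h2
  have hf1 : (Function.support fun q => T δ r x M 1 0 (eqv a b c d h q)).Finite := by
    have := (fin_T hg hNV).preimage ((eqv a b c d h).injective.injOn)
    exact this
  rw [finsum_congr h1, finsum_add_distrib hf1 (fin_T hg (NV_inf hg h hc)),
    finsum_comp_equiv (eqv a b c d h) (f := T δ r x M 1 0)]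

theorem G_zero {δ r : ℤ} (hg : Gp δ r) : G δ r 0 1 = 0 := by
  unfold G
  have : ∀ q, T δ r 0 1 1 0 q = 0 := by
    intro q
    by_contra h
    have h1 := T_ne hg (NV_zero hg) h
    have h2 := (bound hg.pos h1.1.1 h1.2).2
    have h3 := h1.1.2.2
    rw [mul_zero, zero_add, mul_one, abs_one, mul_one, abs_lt] at h2
    rcases hg with ⟨rfl, rfl⟩ | ⟨rfl, rfl⟩ <;> omega
  rw [finsum_congr this, finsum_zero]

theorem G_aff {δ r : ℤ} (hg : Gp δ r) {a b c d : ℤ} (h : a * d - b * c = 1) (hc : (14 : ℤ) ∣ c)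
    {x M : ℤ} (hNV : NV δ r x M) :
    G δ r (a * x + b * M) (c * x + d * M) = G δ r x M + G δ r b d := by
  have h1 := G_coc hg h hc (x := 0) (M := 1) (NV_zero hg)
  simp only [mul_zero, mul_one, zero_add] at h1
  rw [G_coc hg h hc hNV, h1, G_zero hg, zero_add]

theorem G_add (δ r x M m : ℤ) : G δ r (x + m * M) M = G δ r x M := by
  unfold G
  have hdet : (1 : ℤ) * 1 - m * 0 = 1 := by ring
  have h1 : ∀ q, T δ r (x + m * M) M 1 0 q = T δ r x M 1 0 (eqv 1 m 0 1 hdet q) := by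
    intro q
    have h2 := T_act (δ := δ) (r := r) hdet (dvd_zero _) x M 1 0 q
    simp only [mul_one, mul_zero, add_zero, one_mul, zero_mul, zero_add] at h2
    exact h2
  rw [finsum_congr h1, finsum_comp_equiv (eqv 1 m 0 1 hdet) (f := T δ r x M 1 0)]

theorem G_one {δ r : ℤ} (hg : Gp δ r) (x : ℤ) : G δ r x 1 = 0 := by
  have h := G_add δ r 0 1 x
  rw [zero_add, mul_one] at h
  rw [h, G_zero hg]

theorem G_neg_neg (δ r x M : ℤ) : G δ r (-x) (-M) = G δ r x M := by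
  unfold G
  apply finsum_congr
  intro q
  have h : ev q (-x) (-M) = ev q x M := by unfold ev; ring
  unfold T
  rw [h]

/-- the reflection -/
def refl : (ℤ × ℤ × ℤ) ≃ (ℤ × ℤ × ℤ) where
  toFun q := (-q.1, q.2.1, -q.2.2)
  invFun q := (-q.1, q.2.1, -q.2.2)
  left_inv q := by simp
  right_inv q := by simp

theorem G_neg (δ r x M : ℤ) : G δ r (-x) M = -G δ r x M := by
  unfold G
  have h1 : ∀ q, T δ r (-x) M 1 0 q = -T δ r x M 1 0 (refl q) := by
    intro q
    obtain ⟨A, B, C⟩ := q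
    have hr : refl (A, B, C) = (-A, B, -C) := rfl
    rw [hr]
    unfold T
    have hF : inF δ r (-A, B, -C) ↔ inF δ r (A, B, C) := by
      unfold inF
      simp only
      constructor
      · rintro ⟨h1, h2, h3⟩
        exact ⟨by linear_combination h1, (dvd_neg).1 h2, h3⟩
      · rintro ⟨h1, h2, h3⟩
        exact ⟨by linear_combination h1, (dvd_neg).2 h2, h3⟩
    have e1 : ev (-A, B, -C) x M = - ev (A, B, C) (-x) M := by
      unfold ev; simp only; ring
    have e2 : ev (-A, B, -C) 1 0 = - ev (A, B, C) 1 0 := by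
      unfold ev; simp only; ring
    by_cases hq : inF δ r (A, B, C)
    · rw [if_pos hq, if_pos (hF.2 hq), e1, e2, Int.sign_neg, Int.sign_neg]
      ring
    · rw [if_neg hq, if_neg (fun h => hq (hF.1 h)), neg_zero]
  rw [finsum_congr h1, finsum_neg_distrib, finsum_comp_equiv refl (f := T δ r x M 1 0)]

open Classical in
/-- the part with `B = r` -/
def f17 (δ r x M : ℤ) (q : ℤ × ℤ × ℤ) : ℤ :=
  if inF δ r q ∧ 0 < q.1 ∧ ev q x M < 0 then 1 else 0

open Classical in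
/-- the part with `B = - r` -/
def f11 (δ r x M : ℤ) (q : ℤ × ℤ × ℤ) : ℤ :=
  if inF δ r (-q) ∧ 0 < q.1 ∧ ev q x M < 0 then 1 else 0

theorem ev_neg (q : ℤ × ℤ × ℤ) (x M : ℤ) : ev (-q) x M = - ev q x M := by
  unfold ev
  simp only [Prod.fst_neg, Prod.snd_neg]
  ring

theorem T_split {δ r : ℤ} (hg : Gp δ r) {x M : ℤ} (hNV : NV δ r x M) (q : ℤ × ℤ × ℤ) :
    T δ r x M 1 0 q = (-2) * f17 δ r x M q + 2 * f11 δ r x M (-q) := by
  unfold T f17 f11
  rw [neg_neg, ev_neg, ev10]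
  simp only [Prod.fst_neg]
  by_cases hq : inF δ r q
  · rw [if_pos hq]
    have h2 := A_ne hg hq
    have h3 := hNV q hq
    rcases lt_or_gt_of_ne h2 with h4 | h4
    · have n1 : ¬ (inF δ r q ∧ 0 < q.1 ∧ ev q x M < 0) := fun h => by linarith [h.2.1]
      rw [if_neg n1, Int.sign_eq_neg_one_of_neg h4]
      rcases lt_or_gt_of_ne h3 with h5 | h5
      · have n2 : ¬ (inF δ r q ∧ 0 < -q.1 ∧ -ev q x M < 0) := fun h => by linarith [h.2.2]
        rw [if_neg n2, Int.sign_eq_neg_one_of_neg h5]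
        ring
      · have n2 : (inF δ r q ∧ 0 < -q.1 ∧ -ev q x M < 0) := ⟨hq, by linarith, by linarith⟩
        rw [if_pos n2, Int.sign_eq_one_of_pos h5]
        ring
    · have n1 : ¬ (inF δ r q ∧ 0 < -q.1 ∧ -ev q x M < 0) := fun h => by linarith [h.2.1]
      rw [if_neg n1, Int.sign_eq_one_of_pos h4]
      rcases lt_or_gt_of_ne h3 with h5 | h5
      · have n2 : (inF δ r q ∧ 0 < q.1 ∧ ev q x M < 0) := ⟨hq, h4, h5⟩
        rw [if_pos n2, Int.sign_eq_neg_one_of_neg h5]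
        ring
      · have n2 : ¬ (inF δ r q ∧ 0 < q.1 ∧ ev q x M < 0) := fun h => by linarith [h.2.2]
        rw [if_neg n2, Int.sign_eq_one_of_pos h5]
        ring
  · have n1 : ¬ (inF δ r q ∧ 0 < q.1 ∧ ev q x M < 0) := fun h => hq h.1
    have n2 : ¬ (inF δ r q ∧ 0 < -q.1 ∧ -ev q x M < 0) := fun h => hq h.1
    rw [if_neg hq, if_neg n1, if_neg n2]
    ring

theorem f17_ne {δ r x M : ℤ} {q : ℤ × ℤ × ℤ} (h : f17 δ r x M q ≠ 0) :
    inF δ r q ∧ 0 < q.1 ∧ ev q x M < 0 := by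
  unfold f17 at h
  by_contra h5
  rw [if_neg h5] at h
  exact h rfl

theorem f11_ne {δ r x M : ℤ} {q : ℤ × ℤ × ℤ} (h : f11 δ r x M q ≠ 0) :
    inF δ r (-q) ∧ 0 < q.1 ∧ ev q x M < 0 := by
  unfold f11 at h
  by_contra h5
  rw [if_neg h5] at h
  exact h rfl

theorem fin17 {δ r : ℤ} (hg : Gp δ r) {x M : ℤ} (hNV : NV δ r x M) :
    (Function.support (f17 δ r x M)).Finite := by
  refine (fin_T hg hNV).subset ?_
  intro q hq
  have h1 : f17 δ r x M q ≠ 0 := hq
  have h2 : f11 δ r x M (-q) = 0 := by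
    by_contra h3
    have h7 := (f11_ne h3).2.1
    rw [Prod.fst_neg] at h7
    linarith [(f17_ne h1).2.1]
  rw [Function.mem_support, T_split hg hNV, h2]
  intro h3
  apply h1
  linarith

theorem fin11' {δ r : ℤ} (hg : Gp δ r) {x M : ℤ} (hNV : NV δ r x M) :
    (Function.support (fun q => f11 δ r x M (-q))).Finite := by
  refine (fin_T hg hNV).subset ?_
  intro q hq
  have h1 : f11 δ r x M (-q) ≠ 0 := hq
  have h2 : f17 δ r x M q = 0 := by
    by_contra h3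
    have h7 := (f11_ne h1).2.1
    rw [Prod.fst_neg] at h7
    linarith [(f17_ne h3).2.1]
  rw [Function.mem_support, T_split hg hNV, h2]
  intro h3
  apply h1
  linarith

theorem G_eq {δ r : ℤ} (hg : Gp δ r) {x M : ℤ} (hNV : NV δ r x M) :
    G δ r x M = -2 * (Fs δ r x M - Fs δ (28 - r) x M) := by
  classical
  have h1 : Fs δ r x M = ∑ᶠ q, f17 δ r x M q := by
    unfold Fs
    apply finsum_congr
    intro q
    unfold f17 inF ev
    simp only [and_assoc]
  have h2 : Fs δ (28 - r) x M = ∑ᶠ q, f11 δ r x M q := by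
    unfold Fs
    apply finsum_congr
    intro q
    have h3 : (q.2.1 ^ 2 - 4 * q.1 * q.2.2 = δ ^ 2 ∧ (14 : ℤ) ∣ q.1 ∧ q.2.1 % 28 = 28 - r ∧
        0 < q.1 ∧ q.1 * x ^ 2 + q.2.1 * x * M + q.2.2 * M ^ 2 < 0) ↔
        (inF δ r (-q) ∧ 0 < q.1 ∧ ev q x M < 0) := by
      unfold inF ev
      simp only [Prod.fst_neg, Prod.snd_neg, and_assoc]
      constructor
      · rintro ⟨a1, a2, a3, a4, a5⟩
        refine ⟨by linear_combination a1, (dvd_neg).2 a2, ?_, a4, a5⟩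
        rcases hg with ⟨rfl, rfl⟩ | ⟨rfl, rfl⟩ <;> omega
      · rintro ⟨a1, a2, a3, a4, a5⟩
        refine ⟨by linear_combination a1, (dvd_neg).1 a2, ?_, a4, a5⟩
        rcases hg with ⟨rfl, rfl⟩ | ⟨rfl, rfl⟩ <;> omega
    unfold f11
    by_cases hc : inF δ r (-q) ∧ 0 < q.1 ∧ ev q x M < 0
    · rw [if_pos hc, if_pos (h3.2 hc)]
    · rw [if_neg hc, if_neg (fun h => hc (h3.1 h))]
  have h4 : ∑ᶠ q, f11 δ r x M (-q) = ∑ᶠ q, f11 δ r x M q :=
    finsum_comp_equiv (Equiv.neg (ℤ × ℤ × ℤ)) (f := f11 δ r x M)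
  have h3 : G δ r x M = (-2) * (∑ᶠ q, f17 δ r x M q) + 2 * (∑ᶠ q, f11 δ r x M (-q)) := by
    unfold G
    rw [finsum_congr (T_split hg hNV), finsum_add_distrib, mul_finsum, mul_finsum]
    · exact (fin17 hg hNV).subset (Function.support_mul_subset_right _ _)
    · exact (fin11' hg hNV).subset (Function.support_mul_subset_right _ _)
  rw [h1, h2, h3, h4]
  ring

theorem gp3 : Gp 3 17 := Or.inl ⟨rfl, rfl⟩
theorem gp1 : Gp 1 15 := Or.inr ⟨rfl, rfl⟩

theorem Gm_eq {x M : ℤ} (h : IsCoprime (14 * x) M) :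
    G 3 17 x M - 3 * G 1 15 x M = -2 * Gm x M := by
  have h1 := G_eq gp3 (NV_cop gp3 h)
  have h2 := G_eq gp1 (NV_cop gp1 h)
  unfold Gm
  norm_num at h1 h2
  rw [h1, h2]
  ring

/-! ### values -/

theorem bound' {δ : ℤ} (hδ : 0 < δ) {x M : ℤ} (hM : 0 < M) {A B C : ℤ}
    (hd : B ^ 2 - 4 * A * C = δ ^ 2) (h2 : 0 < A)
    (h3 : A * x ^ 2 + B * x * M + C * M ^ 2 < 0) :
    4 * A ≤ δ ^ 2 * M ^ 2 ∧ -(δ * M) < 2 * A * x + B * M ∧ 2 * A * x + B * M < δ * M := by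
  have h4 : A * ev (A, B, C) x M < 0 := mul_neg_of_pos_of_neg h2 h3
  obtain ⟨h5, h6⟩ := bound (q := (A, B, C)) hδ hd h4
  simp only at h5 h6
  rw [abs_of_pos h2] at h5
  rw [abs_of_pos hM, abs_lt] at h6
  exact ⟨h5, h6.1, h6.2⟩

/-- computation of `Fs` from the list of the forms -/
theorem Fs_eval {δ r x M : ℤ} (S : Finset (ℤ × ℤ × ℤ))
    (h : ∀ A B C : ℤ, (B ^ 2 - 4 * A * C = δ ^ 2 ∧ (14 : ℤ) ∣ A ∧ B % 28 = r ∧ 0 < A ∧
      A * x ^ 2 + B * x * M + C * M ^ 2 < 0) ↔ (A, B, C) ∈ S) : Fs δ r x M = S.card := by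
  classical
  unfold Fs
  have hs : Function.support (fun f : ℤ × ℤ × ℤ =>
      if f.2.1 ^ 2 - 4 * f.1 * f.2.2 = δ ^ 2 ∧ (14 : ℤ) ∣ f.1 ∧ f.2.1 % 28 = r ∧ 0 < f.1 ∧
        f.1 * x ^ 2 + f.2.1 * x * M + f.2.2 * M ^ 2 < 0 then (1 : ℤ) else 0) ⊆
      (S : Set (ℤ × ℤ × ℤ)) := by
    rintro ⟨A, B, C⟩ hq
    rw [Finset.mem_coe, ← h]
    by_contra h1
    exact hq (if_neg h1)
  rw [finsum_eq_sum_of_support_subset _ hs, Finset.card_eq_sum_ones, Nat.cast_sum]
  refine Finset.sum_congr rfl ?_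
  rintro ⟨A, B, C⟩ hq
  rw [if_pos ((h A B C).2 hq), Nat.cast_one]

theorem F1713 : Fs 3 17 1 3 = 1 := by
  rw [Fs_eval {(14, -11, 2)}]
  · rfl
  intro A B C
  rw [Finset.mem_singleton, Prod.mk.injEq, Prod.mk.injEq]
  constructor
  · rintro ⟨h4, ⟨k, h5⟩, h6, h7, h8⟩
    obtain ⟨h1, h2, h3⟩ := bound' (by norm_num) (by norm_num) h4 h7 h8
    subst h5
    have hk : k = 1 := by omega
    subst hk
    have hB : B = -11 := by omega
    subst hB
    have hC : C = 2 := by omega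
    subst hC
    simp
  · rintro ⟨rfl, rfl, rfl⟩
    norm_num

theorem F1113 : Fs 3 11 1 3 = 0 := by
  rw [Fs_eval ∅]
  · rfl
  intro A B C
  simp only [Finset.notMem_empty, iff_false]
  rintro ⟨h4, ⟨k, h5⟩, h6, h7, h8⟩
  obtain ⟨h1, h2, h3⟩ := bound' (by norm_num) (by norm_num) h4 h7 h8
  subst h5
  have hk : k = 1 := by omega
  subst hk
  omega

theorem F1013 (r : ℤ) : Fs 1 r 1 3 = 0 := by
  rw [Fs_eval ∅]
  · rfl
  intro A B C
  simp only [Finset.notMem_empty, iff_false]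
  rintro ⟨h4, ⟨k, h5⟩, h6, h7, h8⟩
  obtain ⟨h1, h2, h3⟩ := bound' (by norm_num) (by norm_num) h4 h7 h8
  omega

theorem Gm13 : Gm 1 3 = 1 := by
  unfold Gm
  rw [F1713, F1113, F1013, F1013]
  norm_num

theorem F1715 : Fs 3 17 1 5 = 1 := by
  rw [Fs_eval {(28, -11, 1)}]
  · rfl
  intro A B C
  rw [Finset.mem_singleton, Prod.mk.injEq, Prod.mk.injEq]
  constructor
  · rintro ⟨h4, ⟨k, h5⟩, h6, h7, h8⟩
    obtain ⟨h1, h2, h3⟩ := bound' (by norm_num) (by norm_num) h4 h7 h8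
    subst h5
    have hk : k = 1 ∨ k = 2 ∨ k = 3 ∨ k = 4 := by omega
    have hB : B = -11 := by omega
    subst hB
    rcases hk with rfl | rfl | rfl | rfl <;> omega
  · rintro ⟨rfl, rfl, rfl⟩
    norm_num

theorem F1115 : Fs 3 11 1 5 = 0 := by
  rw [Fs_eval ∅]
  · rfl
  intro A B C
  simp only [Finset.notMem_empty, iff_false]
  rintro ⟨h4, ⟨k, h5⟩, h6, h7, h8⟩
  obtain ⟨h1, h2, h3⟩ := bound' (by norm_num) (by norm_num) h4 h7 h8
  subst h5
  have hk : k = 1 ∨ k = 2 ∨ k = 3 ∨ k = 4 := by omega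
  have hB : B = -17 := by omega
  subst hB
  rcases hk with rfl | rfl | rfl | rfl <;> omega

theorem F1015 (r : ℤ) : Fs 1 r 1 5 = 0 := by
  rw [Fs_eval ∅]
  · rfl
  intro A B C
  simp only [Finset.notMem_empty, iff_false]
  rintro ⟨h4, ⟨k, h5⟩, h6, h7, h8⟩
  obtain ⟨h1, h2, h3⟩ := bound' (by norm_num) (by norm_num) h4 h7 h8
  omega

theorem Gm15 : Gm 1 5 = 1 := by
  unfold Gm
  rw [F1715, F1115, F1015, F1015]
  norm_num

theorem F17613 : Fs 3 17 6 13 = 3 := by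
  rw [Fs_eval {(14, -11, 2), (42, -39, 9), (70, -67, 16)}]
  · rfl
  intro A B C
  constructor
  · rintro ⟨h4, ⟨k, h5⟩, h6, h7, h8⟩
    obtain ⟨h1, h2, h3⟩ := bound' (by norm_num) (by norm_num) h4 h7 h8
    subst h5
    have hk1 : 1 ≤ k := by omega
    have hk2 : k ≤ 27 := by omega
    have hmain : (k = 1 ∧ B = -11 ∧ C = 2) ∨ (k = 3 ∧ B = -39 ∧ C = 9) ∨
        (k = 5 ∧ B = -67 ∧ C = 16) := by
      obtain ⟨j, hj⟩ : ∃ j, B = 28 * j + 17 := ⟨B / 28, by omega⟩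
      have hj1 : -28 ≤ j := by omega
      have hj2 : j ≤ 0 := by omega
      clear h1
      subst hj
      interval_cases k <;> (interval_cases j <;> omega)
    rcases hmain with ⟨rfl, rfl, rfl⟩ | ⟨rfl, rfl, rfl⟩ | ⟨rfl, rfl, rfl⟩ <;> simp
  · intro h
    simp only [Finset.mem_insert, Finset.mem_singleton, Prod.mk.injEq] at h
    rcases h with ⟨rfl, rfl, rfl⟩ | ⟨rfl, rfl, rfl⟩ | ⟨rfl, rfl, rfl⟩ <;> norm_num

theorem F11613 : Fs 3 11 6 13 = 0 := by
  rw [Fs_eval ∅]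
  · rfl
  intro A B C
  simp only [Finset.notMem_empty, iff_false]
  rintro ⟨h4, ⟨k, h5⟩, h6, h7, h8⟩
  obtain ⟨h1, h2, h3⟩ := bound' (by norm_num) (by norm_num) h4 h7 h8
  subst h5
  have hk1 : 1 ≤ k := by omega
  have hk2 : k ≤ 27 := by omega
  obtain ⟨j, hj⟩ : ∃ j, B = 28 * j + 11 := ⟨B / 28, by omega⟩
  have hj1 : -28 ≤ j := by omega
  have hj2 : j ≤ 0 := by omega
  clear h1
  subst hj
  interval_cases k <;> (interval_cases j <;> omega)

theorem F15613 : Fs 1 15 6 13 = 1 := by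
  rw [Fs_eval {(14, -13, 3)}]
  · rfl
  intro A B C
  rw [Finset.mem_singleton, Prod.mk.injEq, Prod.mk.injEq]
  constructor
  · rintro ⟨h4, ⟨k, h5⟩, h6, h7, h8⟩
    obtain ⟨h1, h2, h3⟩ := bound' (by norm_num) (by norm_num) h4 h7 h8
    subst h5
    have hk : k = 1 ∨ k = 2 ∨ k = 3 := by omega
    rcases hk with rfl | rfl | rfl
    · have hB : B = -13 := by omega
      subst hB
      have hC : C = 3 := by omega
      subst hC
      simp
    · omega
    · omega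
  · rintro ⟨rfl, rfl, rfl⟩
    norm_num

theorem F13613 : Fs 1 13 6 13 = 0 := by
  rw [Fs_eval ∅]
  · rfl
  intro A B C
  simp only [Finset.notMem_empty, iff_false]
  rintro ⟨h4, ⟨k, h5⟩, h6, h7, h8⟩
  obtain ⟨h1, h2, h3⟩ := bound' (by norm_num) (by norm_num) h4 h7 h8
  subst h5
  have hk : k = 1 ∨ k = 2 ∨ k = 3 := by omega
  rcases hk with rfl | rfl | rfl <;> omega

theorem Gm613 : Gm 6 13 = 0 := by
  unfold Gm
  rw [F17613, F11613, F15613, F13613]
  norm_num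

end

/-! ### the symbol -/

section

variable {s : ℚ → ℤ} {a : ℕ → ℤ}

theorem per_nat (H : SymN s a) (x : ℚ) (m : ℕ) : s (x + m) = s x := by
  induction m with
  | zero => simp
  | succ m ih =>
    have e : x + ((m + 1 : ℕ) : ℚ) = (x + m) + 1 := by push_cast; ring
    rw [e, H.per, ih]

theorem per_int (H : SymN s a) (x : ℚ) (m : ℤ) : s (x + m) = s x := by
  obtain ⟨k, rfl | rfl⟩ := Int.eq_nat_or_neg m
  · exact_mod_cast per_nat H x k
  · have h := per_nat H (x + ((-(k : ℤ) : ℤ) : ℚ)) k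
    have e : x + ((-(k : ℤ) : ℤ) : ℚ) + (k : ℚ) = x := by push_cast; ring
    rw [e] at h
    exact h.symm

theorem s_zero (H : SymN s a) : s 0 = 0 := by
  have h := H.odd 0
  rw [neg_zero] at h
  omega

theorem s_int (H : SymN s a) (m : ℤ) : s m = 0 := by
  have h := per_int H 0 m
  rw [zero_add, s_zero H] at h
  exact h

theorem v15 (H : SymN s a) : s (1 / 5) = s (1 / 3) := by
  have h := H.aff (A := -5) (B := 1) (C' := 1) (D := -3) (by norm_num) (x := 1) (c := 5)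
    ⟨-1, 3, by norm_num⟩
  have e1 : (((-5 * 1 + 1 * 5 : ℤ) : ℚ) / ((14 * 1 * 1 + -3 * 5 : ℤ) : ℚ)) = 0 := by norm_num
  have e2 : (((1 : ℤ) : ℚ) / ((5 : ℤ) : ℚ)) = 1 / 5 := by norm_num
  have e3 : (((1 : ℤ) : ℚ) / ((-3 : ℤ) : ℚ)) = -(1 / 3) := by norm_num
  rw [e1, e2, e3, s_zero H, H.odd] at h
  linarith

theorem v115 (H : SymN s a) : s (1 / 15) = 0 := by
  have h := H.aff (A := 13) (B := -1) (C' := 1) (D := -1) (by norm_num) (x := 1) (c := 15)
    ⟨-1, 1, by norm_num⟩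
  have e1 : (((13 * 1 + -1 * 15 : ℤ) : ℚ) / ((14 * 1 * 1 + -1 * 15 : ℤ) : ℚ)) = ((2 : ℤ) : ℚ) := by
    norm_num
  have e2 : (((1 : ℤ) : ℚ) / ((15 : ℤ) : ℚ)) = 1 / 15 := by norm_num
  have e3 : (((-1 : ℤ) : ℚ) / ((-1 : ℤ) : ℚ)) = ((1 : ℤ) : ℚ) := by norm_num
  rw [e1, e2, e3, s_int H, s_int H] at h
  linarith

theorem refl1 (H : SymN s a) (x y : ℚ) (m : ℤ) (h : y = -x + m) : s y = -s x := by
  rw [h, per_int H, H.odd]

theorem v415 (H : SymN s a) : s (4 / 15) = 2 * s (1 / 3) := by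
  have h := H.hecke 3 (by norm_num) (by norm_num) (1 / 5)
  rw [H.a3, Finset.sum_range_succ, Finset.sum_range_succ, Finset.sum_range_one] at h
  have e0 : ((3 : ℕ) : ℚ) * (1 / 5) = 3 / 5 := by norm_num
  have e1 : ((1 / 5 : ℚ) + ((0 : ℕ) : ℚ)) / ((3 : ℕ) : ℚ) = 1 / 15 := by norm_num
  have e2 : ((1 / 5 : ℚ) + ((1 : ℕ) : ℚ)) / ((3 : ℕ) : ℚ) = 2 / 5 := by norm_num
  have e3 : ((1 / 5 : ℚ) + ((2 : ℕ) : ℚ)) / ((3 : ℕ) : ℚ) = 11 / 15 := by norm_num
  rw [e0, e1, e2, e3, v115 H, v15 H, refl1 H (2 / 5) (3 / 5) 1 (by norm_num),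
    refl1 H (4 / 15) (11 / 15) 1 (by norm_num)] at h
  linarith

theorem v715 (H : SymN s a) : s (7 / 15) = s (2 / 15) := by
  have h := H.hecke 5 (by norm_num) (by norm_num) (1 / 3)
  rw [H.a5, Finset.sum_range_succ, Finset.sum_range_succ, Finset.sum_range_succ,
    Finset.sum_range_succ, Finset.sum_range_one] at h
  have e0 : ((5 : ℕ) : ℚ) * (1 / 3) = 5 / 3 := by norm_num
  have e1 : ((1 / 3 : ℚ) + ((0 : ℕ) : ℚ)) / ((5 : ℕ) : ℚ) = 1 / 15 := by norm_num
  have e2 : ((1 / 3 : ℚ) + ((1 : ℕ) : ℚ)) / ((5 : ℕ) : ℚ) = 4 / 15 := by norm_num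
  have e3 : ((1 / 3 : ℚ) + ((2 : ℕ) : ℚ)) / ((5 : ℕ) : ℚ) = 7 / 15 := by norm_num
  have e4 : ((1 / 3 : ℚ) + ((3 : ℕ) : ℚ)) / ((5 : ℕ) : ℚ) = 2 / 3 := by norm_num
  have e5 : ((1 / 3 : ℚ) + ((4 : ℕ) : ℚ)) / ((5 : ℕ) : ℚ) = 13 / 15 := by norm_num
  rw [e0, e1, e2, e3, e4, e5, v115 H, v415 H, refl1 H (1 / 3) (5 / 3) 2 (by norm_num),
    refl1 H (1 / 3) (2 / 3) 1 (by norm_num), refl1 H (2 / 15) (13 / 15) 1 (by norm_num)] at h
  linarith

theorem v215 (H : SymN s a) : s (2 / 15) = 0 := by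
  have h := H.inv 15 2 7 (by norm_num) ⟨13, by norm_num⟩
  have e1 : (((2 : ℤ) : ℚ) / ((15 : ℕ) : ℚ)) = 2 / 15 := by norm_num
  have e2 : (((7 : ℤ) : ℚ) / ((15 : ℕ) : ℚ)) = 7 / 15 := by norm_num
  rw [e1, e2, v715 H] at h
  omega

theorem v213 (H : SymN s a) : s (2 / 13) = 0 := by
  have h := H.aff (A := 1) (B := 0) (C' := 1) (D := 1) (by norm_num) (x := 2) (c := -15)
    ⟨-8, -15, by norm_num⟩
  have e1 : (((1 * 2 + 0 * -15 : ℤ) : ℚ) / ((14 * 1 * 2 + 1 * -15 : ℤ) : ℚ)) = 2 / 13 := by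
    norm_num
  have e2 : (((2 : ℤ) : ℚ) / ((-15 : ℤ) : ℚ)) = -(2 / 15) := by norm_num
  have e3 : (((0 : ℤ) : ℚ) / ((1 : ℤ) : ℚ)) = 0 := by norm_num
  rw [e1, e2, e3, H.odd, v215 H, s_zero H] at h
  linarith

theorem v613 (H : SymN s a) : s (6 / 13) = 0 := by
  have h := H.inv 13 2 7 (by norm_num) ⟨15, by norm_num⟩
  have e1 : (((2 : ℤ) : ℚ) / ((13 : ℕ) : ℚ)) = 2 / 13 := by norm_num
  have e2 : (((7 : ℤ) : ℚ) / ((13 : ℕ) : ℚ)) = 7 / 13 := by norm_num
  rw [e1, e2, v213 H] at h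
  rw [refl1 H (7 / 13) (6 / 13) 1 (by norm_num)]
  omega

/-- the symbol is given by the counting function -/
def Gd (s : ℚ → ℤ) (x M : ℤ) : Prop :=
  2 * s ((x : ℚ) / M) = -(s (1 / 3) * (G 3 17 x M - 3 * G 1 15 x M))

theorem Gd.neg_neg {x M : ℤ} (h : Gd s x M) : Gd s (-x) (-M) := by
  unfold Gd at h ⊢
  rw [G_neg_neg, G_neg_neg, ← h]
  push_cast
  rw [neg_div_neg_eq]

theorem Gd.neg (H : SymN s a) {x M : ℤ} (h : Gd s x M) : Gd s (-x) M := by
  unfold Gd at h ⊢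
  rw [G_neg, G_neg]
  push_cast
  rw [neg_div, H.odd]
  linear_combination -h

theorem Gd.add (H : SymN s a) {x M : ℤ} (hM : M ≠ 0) (m : ℤ) (h : Gd s x M) :
    Gd s (x + m * M) M := by
  unfold Gd at h ⊢
  have hMq : (M : ℚ) ≠ 0 := by exact_mod_cast hM
  have e : (((x + m * M : ℤ) : ℚ) / M) = (x : ℚ) / M + m := by
    push_cast
    field_simp
  rw [e, per_int H, G_add, G_add, ← h]

theorem Gd.one (H : SymN s a) (x : ℤ) : Gd s x 1 := by
  unfold Gd
  have e : ((x : ℚ) / ((1 : ℤ) : ℚ)) = (x : ℤ) := by simp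
  rw [e, s_int H, G_one gp3, G_one gp1]
  ring

theorem Gd.of_aff (H : SymN s a) {A B D : ℤ} {c : ℕ} (hdet : A * D - B * (14 * c) = 1)
    {x M : ℤ} (hcop : IsCoprime (14 * x) M)
    (h1 : Gd s (A * x + B * M) (14 * c * x + D * M))
    (h2 : Gd s B D) : Gd s x M := by
  unfold Gd at h1 h2 ⊢
  have h3 := G_aff gp3 (a := A) (b := B) (c := 14 * c) (d := D) hdet ⟨c, rfl⟩ (NV_cop gp3 hcop)
  have h3' := G_aff gp1 (a := A) (b := B) (c := 14 * c) (d := D) hdet ⟨c, rfl⟩ (NV_cop gp1 hcop)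
  have h4 := H.aff (C' := (c : ℤ)) hdet hcop
  rw [h3, h3', h4] at h1
  linear_combination h1 - h2

theorem Gd13 : Gd s 1 3 := by
  have e : (((1 : ℤ) : ℚ) / ((3 : ℤ) : ℚ)) = 1 / 3 := by norm_num
  unfold Gd
  rw [e, Gm_eq ⟨-1, 5, by norm_num⟩, Gm13]
  ring

theorem Gd15 (H : SymN s a) : Gd s 1 5 := by
  have e : (((1 : ℤ) : ℚ) / ((5 : ℤ) : ℚ)) = 1 / 5 := by norm_num
  unfold Gd
  rw [e, v15 H, Gm_eq ⟨-1, 3, by norm_num⟩, Gm15]
  ring

theorem Gd613 (H : SymN s a) : Gd s 6 13 := by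
  have e : (((6 : ℤ) : ℚ) / ((13 : ℤ) : ℚ)) = 6 / 13 := by norm_num
  unfold Gd
  rw [e, v613 H, Gm_eq ⟨-2, 13, by norm_num⟩, Gm613]
  ring

theorem Gd_all (H : SymN s a) (n : ℕ) : ∀ x M : ℤ, M.natAbs = n → M ≠ 0 →
    IsCoprime (14 * x) M → Gd s x M := by
  induction n using Nat.strong_induction_on with
  | _ n ih =>
    intro x M hn hM0 hcop
    -- reduction to positive denominators
    wlog hMp : 0 < M generalizing x M
    · have h1 := this (-x) (-M) (by rw [Int.natAbs_neg, hn]) (neg_ne_zero.2 hM0)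
        (by rw [mul_neg]; exact hcop.neg_neg) (by omega)
      have h2 := h1.neg_neg
      rwa [_root_.neg_neg, _root_.neg_neg] at h2
    rcases eq_or_ne M 1 with rfl | hM1
    · exact Gd.one H x
    have hodd : M % 2 = 1 := by
      rcases Int.emod_two_eq_zero_or_one M with h1 | h1
      · exfalso
        have h2 : (2 : ℤ) ∣ 14 * x := ⟨7 * x, by ring⟩
        have h3 := hcop.isUnit_of_dvd' h2 (Int.dvd_of_emod_eq_zero h1)
        rw [Int.isUnit_iff] at h3
        omega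
      · exact h1
    -- `14 x` is not divisible by `M`
    have hnd : ∀ j : ℤ, 14 * x ≠ j * M := by
      intro j hj
      have h3 := hcop.isUnit_of_dvd' (Dvd.intro_left j hj.symm) (dvd_refl M)
      rw [Int.isUnit_iff] at h3
      omega
    -- the general step
    have step : ∀ (y : ℤ), IsCoprime (14 * y) M → 0 < y → 2 * y < M → Gd s y M := by
      intro y hy hy0 hy1
      have hnd' : ∀ j : ℤ, 14 * y ≠ j * M := by
        intro j hj
        have h3 := hy.isUnit_of_dvd' (Dvd.intro_left j hj.symm) (dvd_refl M)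
        rw [Int.isUnit_iff] at h3
        omega
      have main : ∀ (A B D : ℤ) (c : ℕ), A * D - B * (14 * c) = 1 → 0 < c →
          |14 * c * y + D * M| < M → Gd s B D → Gd s y M := by
        intro A B D c hdet hc hlt hBD
        have hK : 14 * (c : ℤ) * y + D * M ≠ 0 := by
          intro h0
          have h1 : D % 2 = 1 := by
            rcases Int.emod_two_eq_zero_or_one D with h1 | h1
            · exfalso
              obtain ⟨d, hd⟩ := Int.dvd_of_emod_eq_zero h1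
              rw [hd] at hdet
              have : (2 : ℤ) ∣ 1 := ⟨A * d - B * (7 * c), by rw [← hdet]; ring⟩
              norm_num at this
            · exact h1
          obtain ⟨d, hd⟩ : ∃ d, D = 2 * d + 1 := ⟨D / 2, by omega⟩
          obtain ⟨e, he⟩ : ∃ e, M = 2 * e + 1 := ⟨M / 2, by omega⟩
          rw [hd, he] at h0
          have : (2 : ℤ) ∣ 1 := ⟨-(7 * c * y + 2 * d * e + d + e), by linear_combination h0⟩
          norm_num at this
        refine Gd.of_aff H hdet hy ?_ hBD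
        refine ih _ ?_ _ _ rfl hK ?_
        · rw [← hn]
          zify
          rw [abs_of_pos hMp]
          exact hlt
        · -- coprimality
          obtain ⟨u, v, huv⟩ := hy
          have h14 : IsCoprime (14 : ℤ) (14 * (c : ℤ) * y + D * M) := by
            have h1 : IsCoprime (14 : ℤ) (D * M) := by
              refine IsCoprime.mul_right ⟨-(B * c), A, by linear_combination hdet⟩
                ⟨u * y, v, by linear_combination huv⟩
            have h2 : 14 * (c : ℤ) * y + D * M = D * M + 14 * (c * y) := by ring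
            rw [h2]
            exact (IsCoprime.add_mul_left_right_iff).2 h1
          refine IsCoprime.mul_left h14 ?_
          -- Bezout from the inverse matrix
          refine ⟨u * 14 * D - v * (14 * c), -(u * 14 * B) + v * A, ?_⟩
          linear_combination (u * 14 * y + v * M) * hdet + huv
      have c1 : 14 * y < 2 * M ∨ (2 * M < 14 * y ∧ 14 * y < 4 * M) ∨
          (4 * M < 14 * y ∧ 14 * y < 6 * M) ∨ (6 * M < 14 * y ∧ 14 * y < 7 * M) := by
        have := hnd' 2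
        have := hnd' 4
        have := hnd' 6
        omega
      rcases c1 with c1 | c1 | c1 | c1
      · refine main (-1) 0 (-1) 1 (by norm_num) one_pos ?_ ?_
        · rw [abs_lt]
          push_cast
          constructor <;> omega
        · have h1 := (Gd.one H 0).neg_neg
          exact h1
      · refine main (-5) 1 (-3) 1 (by norm_num) one_pos ?_ ?_
        · rw [abs_lt]
          push_cast
          constructor <;> omega
        · have h1 := ((Gd13 (s := s)).neg H).neg_neg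
          exact h1
      · refine main (-3) 1 (-5) 1 (by norm_num) one_pos ?_ ?_
        · rw [abs_lt]
          push_cast
          constructor <;> omega
        · have h1 := ((Gd15 H).neg H).neg_neg
          exact h1
      · refine main (-13) 6 (-13) 2 (by norm_num) two_pos ?_ ?_
        · rw [abs_lt]
          push_cast
          constructor <;> omega
        · have h1 := ((Gd613 H).neg H).neg_neg
          exact h1
    -- reduce `x` modulo `M`
    obtain ⟨y, m, hxy, hy0, hyM⟩ : ∃ y m : ℤ, x = y + m * M ∧ 0 ≤ y ∧ y < M :=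
      ⟨x % M, x / M, by linear_combination -(Int.emod_add_mul_ediv x M), Int.emod_nonneg _ hM0,
        Int.emod_lt_of_pos _ hMp⟩
    have hcy : IsCoprime (14 * y) M := by
      have h1 : 14 * x = 14 * y + (14 * m) * M := by rw [hxy]; ring
      rw [h1] at hcop
      exact (IsCoprime.add_mul_right_left_iff).1 hcop
    have hy00 : y ≠ 0 := by
      rintro rfl
      exact hnd (14 * m) (by rw [hxy]; ring)
    rw [hxy]
    refine Gd.add H hM0 m ?_
    rcases lt_or_ge (2 * y) M with h1 | h1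
    · exact step y hcy (by omega) h1
    · have h2 : IsCoprime (14 * (M - y)) M := by
        have h3 : 14 * (M - y) = -(14 * y) + 14 * M := by ring
        rw [h3]
        exact (IsCoprime.add_mul_right_left_iff).2 hcy.neg_left
      have h3 := step (M - y) h2 (by omega) (by omega)
      have h4 := (h3.neg H).add H hM0 1
      have e : -(M - y) + 1 * M = y := by ring
      rwa [e] at h4

end

/-- **SYMN**: the explicit formula for the odd modular symbol -/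
theorem t_SYMN : S_SYMN := by
  intro s a H x M hM hcop
  have h1 := Gd_all H M.natAbs x M rfl hM.ne' hcop
  unfold Gd at h1
  rw [Gm_eq hcop] at h1
  linarith

end Pool.Agent.Z141.N
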